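import Pool.Agent.J6H88.PHJ.Slice

/-!
# Formulas, decision trees and alternations
-/

set_option autoImplicit false

namespace Pool.Agent.J6H88.PHJ

open Finset

/-! ### De Morgan formulas (Khrapchenko's method) -/

/-- De Morgan formulas; the leaves are literals `x`, `¬ x` of the variables `x : Fin N` or
arbitrary functions of further data `β`. -/
inductive Fm (N : ℕ) (β : Type)
  | lit (x : Fin N) (b : Bool)
  | free (g : β → Bool)
  | and (F G : Fm N β)
  | or (F G : Fm N β)

namespace Fm

variable {N : ℕ} {β : Type}

/-- the value at the set `D` of true variables -/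
def val (B : β) (D : Finset (Fin N)) : Fm N β → Bool
  | lit x b => decide (x ∈ D) == b
  | free g => g B
  | and F G => F.val B D && G.val B D
  | or F G => F.val B D || G.val B D

/-- the number of the leaves which are literals -/
def size : Fm N β → ℕ
  | lit _ _ => 1
  | free _ => 0
  | and F G => F.size + G.size
  | or F G => F.size + G.size

theorem khrapchenko (B : β) (F : Fm N β) : ∀ X Y : Finset (Finset (Fin N)),
    (∀ D ∈ X, F.val B D = true) → (∀ D ∈ Y, F.val B D = false) →
    #(edges X Y) ^ 2 ≤ F.size * (#X * #Y) := by
  induction F with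
  | lit x b =>
    intro X Y hX hY
    have h0 : ∀ q ∈ edges X Y, q.2 = x := by
      intro q hq
      rw [mem_edges] at hq
      have h1 := hX _ hq.1
      have h2 := hY _ hq.2
      by_contra hne
      have h3 : (x ∈ symmDiff q.1 {q.2}) ↔ x ∈ q.1 := by
        rw [mem_symmDiff, mem_singleton]
        constructor
        · rintro (h | h)
          · exact h.1
          · exact absurd h.1.symm hne
        · intro h
          exact Or.inl ⟨h, fun h' => hne h'.symm⟩
      have h4 : decide (x ∈ symmDiff q.1 {q.2}) = decide (x ∈ q.1) := decide_eq_decide.2 h3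
      simp only [val] at h1 h2
      rw [h4, h1] at h2
      exact absurd h2 (by simp)
    have h1 : #(edges X Y) ≤ #X := by
      refine card_le_card_of_injOn (fun q => q.1) (fun q hq => (mem_edges.1 hq).1) ?_
      intro q hq q' hq' h
      exact Prod.ext h ((h0 q hq).trans (h0 q' hq').symm)
    have h2 : #(edges X Y) ≤ #Y := by
      refine card_le_card_of_injOn (fun q => symmDiff q.1 {q.2}) (fun q hq => (mem_edges.1 hq).2) ?_
      intro q hq q' hq' h
      have h3 : q.2 = q'.2 := (h0 q hq).trans (h0 q' hq').symm
      refine Prod.ext ?_ h3
      have h4 : symmDiff q.1 {q.2} = symmDiff q'.1 {q'.2} := h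
      rw [h3] at h4
      exact symmDiff_left_injective _ h4
    show _ ≤ 1 * (#X * #Y)
    rw [one_mul, sq]
    exact Nat.mul_le_mul h1 h2
  | free g =>
    intro X Y hX hY
    have h1 : edges X Y = ∅ := by
      rw [eq_empty_iff_forall_notMem]
      intro q hq
      rw [mem_edges] at hq
      have h1 := hX _ hq.1
      have h2 := hY _ hq.2
      simp only [val] at h1 h2
      rw [h1] at h2
      exact absurd h2 (by simp)
    rw [h1]
    simp
  | and F G ihF ihG =>
    intro X Y hX hY
    have hX1 : ∀ D ∈ X, F.val B D = true := fun D hD => by
      have := hX D hD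
      simp only [val, Bool.and_eq_true] at this
      exact this.1
    have hX2 : ∀ D ∈ X, G.val B D = true := fun D hD => by
      have := hX D hD
      simp only [val, Bool.and_eq_true] at this
      exact this.2
    have h1 := ihF X (Y.filter fun D => F.val B D = false) hX1 fun D hD => (mem_filter.1 hD).2
    have h2 := ihG X (Y.filter fun D => ¬ F.val B D = false) hX2 fun D hD => by
      have h3 := hY D (mem_filter.1 hD).1
      have h4 := (mem_filter.1 hD).2
      simp only [Bool.not_eq_false] at h4
      simp only [val, h4, Bool.true_and] at h3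
      exact h3
    rw [edges_right X Y (fun D => F.val B D = false)]
    have h5 := card_filter_add_card_filter_not (s := Y) (fun D => F.val B D = false)
    rw [mul_comm (#X)] at h1 h2
    have h6 := cs h1 h2
    rw [h5, mul_comm (#Y)] at h6
    exact h6
  | or F G ihF ihG =>
    intro X Y hX hY
    have hY1 : ∀ D ∈ Y, F.val B D = false := fun D hD => by
      have := hY D hD
      simp only [val, Bool.or_eq_false_iff] at this
      exact this.1
    have hY2 : ∀ D ∈ Y, G.val B D = false := fun D hD => by
      have := hY D hD
      simp only [val, Bool.or_eq_false_iff] at this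
      exact this.2
    have h1 := ihF (X.filter fun D => F.val B D = true) Y (fun D hD => (mem_filter.1 hD).2) hY1
    have h2 := ihG (X.filter fun D => ¬ F.val B D = true) Y (fun D hD => by
      have h3 := hX D (mem_filter.1 hD).1
      have h4 := (mem_filter.1 hD).2
      simp only [Bool.not_eq_true] at h4
      simp only [val, h4, Bool.false_or] at h3
      exact h3) hY2
    rw [edges_left X Y (fun D => F.val B D = true)]
    have h5 := card_filter_add_card_filter_not (s := X) (fun D => F.val B D = true)
    have h6 := cs h1 h2
    rw [h5] at h6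
    exact h6

/-- an independent family decided by a small formula is small -/
theorem indep_le (B : β) (F : Fm N β) {T : Finset (Finset (Fin N))}
    (hF : ∀ D, D ∈ T ↔ F.val B D = true) (hT : ∀ D ∈ T, ∀ x : Fin N, symmDiff D {x} ∉ T) :
    N ^ 2 * #T ≤ F.size * (2 ^ N - #T) := by
  have h1 := khrapchenko B F T Tᶜ (fun D hD => (hF D).1 hD) (fun D hD => by
    rw [mem_compl, hF, Bool.not_eq_true] at hD
    exact hD)
  rw [edges_indep hT] at h1
  have h2 : #Tᶜ = 2 ^ N - #T := by
    rw [card_compl, Fintype.card_finset, Fintype.card_fin]
  rw [h2] at h1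
  rcases Nat.eq_zero_or_pos #T with h0 | h0
  · rw [h0]
    simp
  · have h3 : #T * (N ^ 2 * #T) ≤ #T * (F.size * (2 ^ N - #T)) := by
      calc #T * (N ^ 2 * #T) = (N * #T) ^ 2 := by ring
        _ ≤ F.size * (#T * (2 ^ N - #T)) := h1
        _ = #T * (F.size * (2 ^ N - #T)) := by ring
    exact Nat.le_of_mul_le_mul_left h3 h0

end Fm

/-! ### Decision trees -/

/-- decision trees which query the variables `x : Fin N` -/
inductive Tr (N : ℕ)
  | leaf (b : Bool)
  | ask (x : Fin N) (no yes : Tr N)

namespace Tr

variable {N : ℕ}

/-- the value at the set `D` -/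
def val (D : Finset (Fin N)) : Tr N → Bool
  | leaf b => b
  | ask x no yes => if x ∈ D then yes.val D else no.val D

/-- the number of queries at the set `D` -/
def cost (D : Finset (Fin N)) : Tr N → ℕ
  | leaf _ => 0
  | ask x no yes => 1 + if x ∈ D then yes.cost D else no.cost D

/-- the sensitive variables are queried -/
theorem sens_le (T : Tr N) (D : Finset (Fin N)) :
    #(univ.filter fun x : Fin N => T.val (symmDiff D {x}) ≠ T.val D) ≤ T.cost D := by
  induction T with
  | leaf b => simp [val]
  | ask y no yes ih1 ih2 =>
    have hmem : ∀ x : Fin N, x ≠ y → (y ∈ symmDiff D {x} ↔ y ∈ D) := by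
      intro x hxy
      rw [mem_symmDiff, mem_singleton]
      constructor
      · rintro (h | h)
        · exact h.1
        · exact absurd h.1.symm hxy
      · intro h
        exact Or.inl ⟨h, fun h' => hxy h'.symm⟩
    by_cases hy : y ∈ D
    · have h1 : (univ.filter fun x : Fin N => (ask y no yes).val (symmDiff D {x}) ≠
          (ask y no yes).val D) ⊆ insert y (univ.filter fun x : Fin N =>
            yes.val (symmDiff D {x}) ≠ yes.val D) := by
        intro x hx
        rw [mem_insert]
        by_cases hxy : x = y
        · exact Or.inl hxy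
        · right
          rw [mem_filter] at hx ⊢
          refine ⟨mem_univ _, ?_⟩
          have h2 := hx.2
          simp only [val] at h2
          rw [if_pos ((hmem x hxy).2 hy), if_pos hy] at h2
          exact h2
      refine (card_le_card h1).trans ((card_insert_le _ _).trans ?_)
      simp only [cost]
      rw [if_pos hy]
      omega
    · have h1 : (univ.filter fun x : Fin N => (ask y no yes).val (symmDiff D {x}) ≠
          (ask y no yes).val D) ⊆ insert y (univ.filter fun x : Fin N =>
            no.val (symmDiff D {x}) ≠ no.val D) := by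
        intro x hx
        rw [mem_insert]
        by_cases hxy : x = y
        · exact Or.inl hxy
        · right
          rw [mem_filter] at hx ⊢
          refine ⟨mem_univ _, ?_⟩
          have h2 := hx.2
          simp only [val] at h2
          rw [if_neg (fun h => hy ((hmem x hxy).1 h)), if_neg hy] at h2
          exact h2
      refine (card_le_card h1).trans ((card_insert_le _ _).trans ?_)
      simp only [cost]
      rw [if_neg hy]
      omega

/-- an independent family decided by a decision tree with few queries is small -/
theorem indep_le (T : Tr N) {S : Finset (Finset (Fin N))}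
    (hF : ∀ D, D ∈ S ↔ T.val D = true) (hS : ∀ D ∈ S, ∀ x : Fin N, symmDiff D {x} ∉ S) :
    2 * N * #S ≤ ∑ D : Finset (Fin N), T.cost D := by
  -- the sensitive pairs
  have h1 : ∑ D : Finset (Fin N), #(univ.filter fun x : Fin N =>
      T.val (symmDiff D {x}) ≠ T.val D) = #(edges S Sᶜ) + #(edges Sᶜ S) := by
    have h2 : (edges S Sᶜ ∪ edges Sᶜ S) =
        (univ : Finset (Finset (Fin N))).biUnion fun D => (univ.filter fun x : Fin N =>
          T.val (symmDiff D {x}) ≠ T.val D).map ⟨fun x => (D, x), fun a b h => (Prod.ext_iff.1 h).2⟩ := by
      ext q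
      rw [mem_union, mem_edges, mem_edges, mem_biUnion, mem_compl, mem_compl, hF, hF]
      constructor
      · intro h
        refine ⟨q.1, mem_univ _, ?_⟩
        rw [Finset.mem_map]
        refine ⟨q.2, ?_, rfl⟩
        rw [mem_filter]
        refine ⟨mem_univ _, ?_⟩
        rcases h with h | h
        · intro h'
          exact h.2 (h'.trans h.1)
        · intro h'
          exact h.1 (h'.symm.trans h.2)
      · rintro ⟨D, _, hD⟩
        rw [Finset.mem_map] at hD
        obtain ⟨x, hx, rfl⟩ := hD
        rw [mem_filter] at hx
        have h3 := hx.2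
        show (T.val D = true ∧ ¬ T.val (symmDiff D {x}) = true) ∨
          (¬ T.val D = true ∧ T.val (symmDiff D {x}) = true)
        revert h3
        cases T.val D <;> cases T.val (symmDiff D {x}) <;> simp
    rw [← card_union_of_disjoint, h2, card_biUnion]
    · refine sum_congr rfl fun D _ => ?_
      rw [card_map]
    · intro D _ D' _ hne
      rw [Function.onFun, disjoint_left]
      intro q hq hq'
      rw [Finset.mem_map] at hq hq'
      obtain ⟨x, _, rfl⟩ := hq
      obtain ⟨x', _, h⟩ := hq'
      exact hne (Prod.ext_iff.1 h).1.symm
    · rw [disjoint_left]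
      intro q hq hq'
      rw [mem_edges] at hq hq'
      exact mem_compl.1 hq'.1 hq.1
  have h3 : #(edges Sᶜ S) = #(edges S Sᶜ) := by
    refine card_nbij' (fun q => (symmDiff q.1 {q.2}, q.2)) (fun q => (symmDiff q.1 {q.2}, q.2))
      ?_ ?_ ?_ ?_
    · intro q hq
      rw [mem_coe, mem_edges] at hq ⊢
      refine ⟨hq.2, ?_⟩
      show symmDiff (symmDiff q.1 {q.2}) {q.2} ∈ Sᶜ
      rw [symmDiff_symmDiff_cancel_right]
      exact hq.1
    · intro q hq
      rw [mem_coe, mem_edges] at hq ⊢
      refine ⟨hq.2, ?_⟩
      show symmDiff (symmDiff q.1 {q.2}) {q.2} ∈ S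
      rw [symmDiff_symmDiff_cancel_right]
      exact hq.1
    · intro q _
      exact Prod.ext (symmDiff_symmDiff_cancel_right _ _) rfl
    · intro q _
      exact Prod.ext (symmDiff_symmDiff_cancel_right _ _) rfl
  rw [h3, edges_indep hS] at h1
  calc 2 * N * #S = N * #S + N * #S := by ring
    _ = ∑ D : Finset (Fin N), #(univ.filter fun x : Fin N =>
      T.val (symmDiff D {x}) ≠ T.val D) := h1.symm
    _ ≤ _ := sum_le_sum fun D _ => T.sens_le D

end Tr

/-! ### Alternations -/

section alt

variable {N : ℕ}

/-- a family of finite sets without `k + 1` members in a chain -/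
theorem sperner_k (k : ℕ) : ∀ T : Finset (Finset (Fin N)),
    (∀ c : ℕ → Finset (Fin N), (∀ i ≤ k, c i ∈ T) → ¬ ∀ i < k, c i ⊂ c (i + 1)) →
    #T ≤ k * N.choose (N / 2) := by
  classical
  induction k with
  | zero =>
    intro T hT
    have h1 : T = ∅ := by
      rw [eq_empty_iff_forall_notMem]
      intro D hD
      exact hT (fun _ => D) (fun _ _ => hD) (fun i hi => absurd hi (Nat.not_lt_zero i))
    rw [h1]
    simp
  | succ k ih =>
    intro T hT
    set M : Finset (Finset (Fin N)) := T.filter fun D => ∀ D' ∈ T, ¬ D' ⊂ D with hM
    have hanti : IsAntichain (· ⊆ ·) (M : Set (Finset (Fin N))) := by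
      intro D hD D' hD' hne hsub
      rw [mem_coe, hM, mem_filter] at hD hD'
      exact hD'.2 D hD.1 (hsub.ssubset_of_ne hne)
    have h1 : #M ≤ N.choose (N / 2) := by
      have := hanti.sperner
      rwa [Fintype.card_fin] at this
    have h2 : #(T.filter fun D => ¬ ∀ D' ∈ T, ¬ D' ⊂ D) ≤ k * N.choose (N / 2) := by
      refine ih _ fun c hc hlt => ?_
      have h3 := (mem_filter.1 (hc 0 (Nat.zero_le k))).2
      push Not at h3
      obtain ⟨D', hD', hlt'⟩ := h3
      refine hT (fun i => if i = 0 then D' else c (i - 1)) ?_ ?_
      · intro i hi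
        rcases Nat.eq_zero_or_pos i with h0 | h0
        · simp [h0, hD']
        · simp only [h0.ne', if_false]
          exact (mem_filter.1 (hc (i - 1) (by omega))).1
      · intro i hi
        rcases Nat.eq_zero_or_pos i with h0 | h0
        · simp only [h0, if_true, zero_add, one_ne_zero, if_false, Nat.sub_self]
          exact hlt'
        · have h4 := hlt (i - 1) (by omega)
          simp only [h0.ne', if_false, Nat.succ_ne_zero, Nat.add_sub_cancel]
          have h5 : i - 1 + 1 = i := by omega
          rwa [h5] at h4
    have h3 := card_filter_add_card_filter_not (s := T) (fun D => ∀ D' ∈ T, ¬ D' ⊂ D)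
    rw [← h3]
    calc #(T.filter fun D => ∀ D' ∈ T, ¬ D' ⊂ D) + #(T.filter fun D => ¬ ∀ D' ∈ T, ¬ D' ⊂ D)
        ≤ N.choose (N / 2) + k * N.choose (N / 2) := Nat.add_le_add h1 h2
      _ = (k + 1) * N.choose (N / 2) := by ring

/-- the number of changes of `b` before `m` -/
noncomputable def changes {α : Type} (b : ℕ → α) (m : ℕ) : ℕ :=
  by classical exact #((range m).filter fun i => b i ≠ b (i + 1))

theorem changes_succ {α : Type} (b : ℕ → α) (m : ℕ) [Decidable (b m ≠ b (m + 1))] :
    changes b (m + 1) = changes b m + if b m ≠ b (m + 1) then 1 else 0 := by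
  classical
  unfold changes
  rw [range_add_one, filter_insert]
  split_ifs with h
  · rw [card_insert_of_notMem]
    simp
  · rfl

/-- a function which is monotone as long as `v` does not change -/
theorem changes_pair {α : Type} (v : ℕ → α) (b : ℕ → Bool)
    (h : ∀ i, v i = v (i + 1) → b i = true → b (i + 1) = true) (m : ℕ) :
    changes (fun i => (v i, b i)) m ≤ 2 * changes v m + (if b m then 1 else 0) := by
  classical
  induction m with
  | zero => simp [changes]
  | succ m ih =>
    rw [changes_succ, changes_succ]
    by_cases hv : v m = v (m + 1)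
    · by_cases hb : b m = true
      · have hb' := h m hv hb
        have h1 : ¬ ((v m, b m) ≠ (v (m + 1), b (m + 1))) := by
          push Not
          exact Prod.ext hv (hb.trans hb'.symm)
        rw [if_neg h1, if_neg (by simpa using hv), if_pos hb']
        rw [if_pos hb] at ih
        omega
      · rw [Bool.not_eq_true] at hb
        rw [hb] at ih
        rw [if_neg (by simp : ¬ (false = true))] at ih
        rw [if_neg (by simpa using hv : ¬ (v m ≠ v (m + 1)))]
        cases hb' : b (m + 1)
        · have h1 : ¬ ((v m, b m) ≠ (v (m + 1), false)) := by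
            push Not
            exact Prod.ext hv hb
          rw [if_neg h1]
          simpa using ih
        · split_ifs <;> simp_all
    · rw [if_pos (show v m ≠ v (m + 1) from hv)]
      split_ifs <;> split_ifs at ih <;> omega

/-- an independent family which alternates at most `K` times along increasing sequences -/
theorem alt_le {K : ℕ} {T : Finset (Finset (Fin N))} (hT : ∀ D ∈ T, ∀ x : Fin N, symmDiff D {x} ∉ T)
    (hK : ∀ A : ℕ → Finset (Fin N), Monotone A → ∀ m, changes (fun i => decide (A i ∈ T)) m ≤ K) :
    #T ≤ (K / 2 + 1) * N.choose (N / 2) := by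
  classical
  refine sperner_k _ T fun c hc hlt => ?_
  set k := K / 2 + 1 with hk
  have hx : ∀ i, ∃ x, i < k → x ∈ c (i + 1) ∧ x ∉ c i := by
    intro i
    by_cases hi : i < k
    · obtain ⟨x, hx, hx'⟩ := Finset.exists_of_ssubset (hlt i hi)
      exact ⟨x, fun _ => ⟨hx, hx'⟩⟩
    · by_cases hN : Nonempty (Fin N)
      · exact ⟨Classical.choice hN, fun h => absurd h hi⟩
      · exfalso
        obtain ⟨x, _⟩ := Finset.exists_of_ssubset (hlt 0 (by omega))
        exact hN ⟨x⟩
  choose x hx using hx
  let A : ℕ → Finset (Fin N) := fun j =>
    if j / 2 < k then (if j % 2 = 0 then c (j / 2) else insert (x (j / 2)) (c (j / 2))) else c k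
  have hA0 : ∀ i, i ≤ k → A (2 * i) = c i := by
    intro i hi
    have h1 : 2 * i / 2 = i := by omega
    have h2 : 2 * i % 2 = 0 := by omega
    show (if 2 * i / 2 < k then _ else _) = _
    rw [h1, h2]
    by_cases h : i < k
    · rw [if_pos h, if_pos rfl]
    · rw [if_neg h, show i = k by omega]
  have hA1 : ∀ i, i < k → A (2 * i + 1) = insert (x i) (c i) := by
    intro i hi
    have h1 : (2 * i + 1) / 2 = i := by omega
    have h2 : (2 * i + 1) % 2 = 1 := by omega
    show (if (2 * i + 1) / 2 < k then _ else _) = _
    rw [h1, h2, if_pos hi, if_neg one_ne_zero]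
  have hmono : Monotone A := by
    refine monotone_nat_of_le_succ fun j => ?_
    obtain ⟨i, hi⟩ : ∃ i, j = 2 * i ∨ j = 2 * i + 1 := ⟨j / 2, by omega⟩
    by_cases hik : i < k
    · rcases hi with rfl | rfl
      · rw [hA0 i hik.le, hA1 i hik]
        exact subset_insert _ _
      · rw [hA1 i hik, show 2 * i + 1 + 1 = 2 * (i + 1) by ring, hA0 (i + 1) hik]
        exact insert_subset (hx i hik).1 (hlt i hik).1
    · have h1 : ∀ j', k ≤ j' / 2 → A j' = c k := by
        intro j' hj'
        show (if j' / 2 < k then _ else _) = _
        rw [if_neg (by omega)]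
      rw [h1 j (by omega), h1 (j + 1) (by omega)]
  have hch : ∀ j, j ≤ 2 * k → changes (fun i => decide (A i ∈ T)) j = j := by
    intro j
    induction j with
    | zero => intro _; simp [changes]
    | succ j ih =>
      intro hj
      rw [changes_succ, ih (by omega)]
      have hne : (decide (A j ∈ T)) ≠ (decide (A (j + 1) ∈ T)) := by
        obtain ⟨i, hi⟩ : ∃ i, j = 2 * i ∨ j = 2 * i + 1 := ⟨j / 2, by omega⟩
        have hik : i < k := by omega
        have hmid : insert (x i) (c i) ∉ T := by
          have h1 : symmDiff (c i) {x i} = insert (x i) (c i) := by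
            ext y
            simp only [mem_symmDiff, mem_singleton, mem_insert]
            constructor
            · rintro (⟨h, h'⟩ | ⟨h, h'⟩)
              · exact Or.inr h
              · exact Or.inl h
            · rintro (h | h)
              · right
                refine ⟨h, ?_⟩
                rw [h]
                exact (hx i hik).2
              · left
                refine ⟨h, ?_⟩
                rintro rfl
                exact (hx i hik).2 h
          rw [← h1]
          exact hT _ (hc i hik.le) _
        rcases hi with rfl | rfl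
        · rw [hA0 i hik.le, hA1 i hik, decide_eq_true (hc i hik.le), decide_eq_false hmid]
          simp
        · rw [hA1 i hik, show 2 * i + 1 + 1 = 2 * (i + 1) by ring, hA0 (i + 1) hik,
            decide_eq_true (hc (i + 1) hik), decide_eq_false hmid]
          simp
      rw [if_pos hne]
  have h1 := hK A hmono (2 * k)
  rw [hch _ le_rfl] at h1
  omega

/-- a monotone sequence of truth values changes at most once -/
theorem changes_mono {b : ℕ → Bool} (h : ∀ i, b i = true → b (i + 1) = true) (m : ℕ) :
    changes b m ≤ if b m then 1 else 0 := by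
  classical
  induction m with
  | zero => simp [changes]
  | succ m ih =>
    rw [changes_succ]
    cases hb : b m
    · rw [hb] at ih
      cases hb' : b (m + 1) <;> simp_all
    · rw [h m hb]
      rw [hb] at ih
      simpa using ih

theorem changes_ite {q f g : ℕ → Bool} (m : ℕ) :
    changes (fun i => if q i then f i else g i) m ≤ changes q m + (changes f m + changes g m) := by
  classical
  induction m with
  | zero => simp [changes]
  | succ m ih =>
    rw [changes_succ, changes_succ, changes_succ, changes_succ]
    by_cases hq : q m = q (m + 1)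
    · by_cases hf : f m = f (m + 1)
      · by_cases hg : g m = g (m + 1)
        · have h1 : ¬ ((if q m then f m else g m) ≠ (if q (m + 1) then f (m + 1) else g (m + 1))) := by
            push Not
            rw [hq, hf, hg]
          rw [if_neg h1]
          omega
        · rw [if_pos (show g m ≠ g (m + 1) from hg)]
          split_ifs <;> omega
      · rw [if_pos (show f m ≠ f (m + 1) from hf)]
        split_ifs <;> omega
    · rw [if_pos (show q m ≠ q (m + 1) from hq)]
      split_ifs <;> omega

end alt

end Pool.Agent.J6H88.PHJ
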