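import Mathlib

/-!
# Families of subsets without two members which differ in one cell: slices, formulas, alternations,
decision trees
-/

set_option autoImplicit false

namespace Pool.Agent.J6H88.PHJ

open Finset

section slices

variable {E : Type} [Fintype E] [DecidableEq E] {N : ℕ} (ι : Fin N ↪ E)

/-- the special cells -/
def rng : Finset E := univ.map ι

/-- the slice of `S` over the contents `B` of the other cells -/
def slice (S : Finset (Finset E)) (B : Finset E) : Finset (Finset (Fin N)) :=
  univ.filter fun D => B ∪ D.map ι ∈ S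

omit [Fintype E] in
theorem mem_slice {S : Finset (Finset E)} {B : Finset E} {D : Finset (Fin N)} :
    D ∈ slice ι S B ↔ B ∪ D.map ι ∈ S := by
  simp [slice]

theorem union_sdiff {B : Finset E} (hB : B ⊆ (rng ι)ᶜ) (D : Finset (Fin N)) :
    (B ∪ D.map ι) \ rng ι = B := by
  ext e
  simp only [mem_sdiff, mem_union]
  constructor
  · rintro ⟨h | h, h2⟩
    · exact h
    · refine absurd ?_ h2
      obtain ⟨x, hx, rfl⟩ := Finset.mem_map.1 h
      exact Finset.mem_map_of_mem ι (mem_univ x)
  · intro h
    exact ⟨Or.inl h, Finset.mem_compl.1 (hB h)⟩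

theorem mem_union_iff {B : Finset E} (hB : B ⊆ (rng ι)ᶜ) (D : Finset (Fin N)) (x : Fin N) :
    ι x ∈ B ∪ D.map ι ↔ x ∈ D := by
  rw [mem_union, Finset.mem_map' ι]
  constructor
  · rintro (h | h)
    · exact absurd (Finset.mem_map_of_mem ι (mem_univ x)) (Finset.mem_compl.1 (hB h))
    · exact h
  · exact Or.inr

/-- a family is the union of its slices -/
theorem card_slices (S : Finset (Finset E)) :
    #S = ∑ B ∈ ((rng ι)ᶜ).powerset, #(slice ι S B) := by
  rw [card_eq_sum_card_fiberwise (f := fun A => A \ rng ι) (t := ((rng ι)ᶜ).powerset)]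
  · refine sum_congr rfl fun B hB => ?_
    have hB' : B ⊆ (rng ι)ᶜ := mem_powerset.1 hB
    refine (card_nbij' (fun D => B ∪ D.map ι) (fun A => univ.filter fun x => ι x ∈ A) ?_ ?_ ?_
      ?_).symm
    · intro D hD
      rw [mem_coe, mem_slice] at hD
      rw [mem_coe, mem_filter]
      exact ⟨hD, union_sdiff ι hB' D⟩
    · intro A hA
      rw [mem_coe, mem_filter] at hA
      rw [mem_coe, mem_slice]
      have h1 : B ∪ (univ.filter fun x => ι x ∈ A).map ι = A := by
        ext e
        rw [mem_union]
        constructor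
        · rintro (h | h)
          · rw [← hA.2] at h
            exact (mem_sdiff.1 h).1
          · obtain ⟨x, hx, rfl⟩ := Finset.mem_map.1 h
            exact (mem_filter.1 hx).2
        · intro h
          by_cases he : e ∈ rng ι
          · obtain ⟨x, hx, rfl⟩ := Finset.mem_map.1 he
            exact Or.inr (Finset.mem_map_of_mem ι (mem_filter.2 ⟨mem_univ _, h⟩))
          · left
            rw [← hA.2]
            exact mem_sdiff.2 ⟨h, he⟩
      rw [h1]
      exact hA.1
    · intro D hD
      ext x
      simp only [mem_filter, mem_univ, true_and]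
      exact mem_union_iff ι hB' D x
    · intro A hA
      rw [mem_coe, mem_filter] at hA
      show B ∪ (univ.filter fun x => ι x ∈ A).map ι = A
      ext e
      rw [mem_union]
      constructor
      · rintro (h | h)
        · rw [← hA.2] at h
          exact (mem_sdiff.1 h).1
        · obtain ⟨x, hx, rfl⟩ := Finset.mem_map.1 h
          exact (mem_filter.1 hx).2
      · intro h
        by_cases he : e ∈ rng ι
        · obtain ⟨x, hx, rfl⟩ := Finset.mem_map.1 he
          exact Or.inr (Finset.mem_map_of_mem ι (mem_filter.2 ⟨mem_univ _, h⟩))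
        · left
          rw [← hA.2]
          exact mem_sdiff.2 ⟨h, he⟩
  · intro A _
    rw [mem_coe, mem_powerset]
    intro e he
    exact mem_compl.2 (mem_sdiff.1 he).2

/-- a sum over all sets is a sum over the slices -/
theorem sum_slices (f : Finset E → ℕ) :
    ∑ A : Finset E, f A = ∑ B ∈ ((rng ι)ᶜ).powerset, ∑ D : Finset (Fin N), f (B ∪ D.map ι) := by
  rw [← sum_fiberwise_of_maps_to (s := univ) (t := ((rng ι)ᶜ).powerset)
    (g := fun A => A \ rng ι) (f := f)]
  · refine sum_congr rfl fun B hB => ?_
    have hB' : B ⊆ (rng ι)ᶜ := mem_powerset.1 hB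
    have hback : ∀ A : Finset E, A \ rng ι = B →
        B ∪ (univ.filter fun x => ι x ∈ A).map ι = A := by
      intro A hA
      ext e
      rw [mem_union]
      constructor
      · rintro (h | h)
        · rw [← hA] at h
          exact (mem_sdiff.1 h).1
        · obtain ⟨x, hx, rfl⟩ := Finset.mem_map.1 h
          exact (mem_filter.1 hx).2
      · intro h
        by_cases he : e ∈ rng ι
        · obtain ⟨x, hx, rfl⟩ := Finset.mem_map.1 he
          exact Or.inr (Finset.mem_map_of_mem ι (mem_filter.2 ⟨mem_univ _, h⟩))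
        · left
          rw [← hA]
          exact mem_sdiff.2 ⟨h, he⟩
    refine (sum_nbij' (fun D => B ∪ D.map ι) (fun A => univ.filter fun x => ι x ∈ A) ?_ ?_ ?_
      ?_ ?_).symm
    · intro D _
      rw [mem_filter]
      exact ⟨mem_univ _, union_sdiff ι hB' D⟩
    · intro A _
      exact mem_univ _
    · intro D _
      ext x
      simp only [mem_filter, mem_univ, true_and]
      exact mem_union_iff ι hB' D x
    · intro A hA
      exact hback A (mem_filter.1 hA).2
    · intro D _
      rfl
  · intro A _
    rw [mem_powerset]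
    intro e he
    exact mem_compl.2 (mem_sdiff.1 he).2

theorem card_contents : #((rng ι)ᶜ).powerset = 2 ^ (Fintype.card E - N) := by
  rw [card_powerset, card_compl, rng, card_map, card_univ, Fintype.card_fin]

/-- there are no two members which differ in exactly one special cell -/
def Isolated (S : Finset (Finset E)) : Prop :=
  ∀ A ∈ S, ∀ x : Fin N, ι x ∉ A → insert (ι x) A ∉ S

omit [Fintype E] in
theorem map_insert_eq (B : Finset E) (D : Finset (Fin N)) (x : Fin N) :
    B ∪ (insert x D).map ι = insert (ι x) (B ∪ D.map ι) := by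
  rw [Finset.map_insert, Finset.union_insert]

/-- the slices of an isolated family are independent in the cube -/
theorem slice_indep {S : Finset (Finset E)} (hS : Isolated ι S) {B : Finset E}
    (hB : B ⊆ (rng ι)ᶜ) {D : Finset (Fin N)} (hD : D ∈ slice ι S B) (x : Fin N) :
    symmDiff D {x} ∉ slice ι S B := by
  rw [mem_slice] at hD ⊢
  by_cases hx : x ∈ D
  · have h1 : symmDiff D {x} = D.erase x := by
      ext y
      simp only [mem_symmDiff, mem_singleton, mem_erase]
      constructor
      · rintro (⟨h, h'⟩ | ⟨h, h'⟩)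
        · exact ⟨h', h⟩
        · rw [h] at h'
          exact absurd hx h'
      · rintro ⟨h, h'⟩
        exact Or.inl ⟨h', h⟩
    rw [h1]
    intro h2
    refine hS _ h2 x ?_ ?_
    · rw [mem_union_iff ι hB]
      exact notMem_erase x D
    · rw [← map_insert_eq, insert_erase hx]
      exact hD
  · have h1 : symmDiff D {x} = insert x D := by
      ext y
      simp only [mem_symmDiff, mem_singleton, mem_insert]
      constructor
      · rintro (⟨h, h'⟩ | ⟨h, h'⟩)
        · exact Or.inr h
        · exact Or.inl h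
      · rintro (h | h)
        · right
          refine ⟨h, ?_⟩
          rw [h]
          exact hx
        · left
          refine ⟨h, ?_⟩
          rintro rfl
          exact hx h
    rw [h1, map_insert_eq]
    exact hS _ hD x (by rw [mem_union_iff ι hB]; exact hx)

end slices

section cube

variable {N : ℕ}

/-- the pairs `(D, x)` with `D ∈ X` and `D ∆ {x} ∈ Y` -/
def edges (X Y : Finset (Finset (Fin N))) : Finset (Finset (Fin N) × Fin N) :=
  (X ×ˢ univ).filter fun q => symmDiff q.1 {q.2} ∈ Y

theorem mem_edges {X Y : Finset (Finset (Fin N))} {q : Finset (Fin N) × Fin N} :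
    q ∈ edges X Y ↔ q.1 ∈ X ∧ symmDiff q.1 {q.2} ∈ Y := by
  simp [edges]

/-- the edges of an independent family -/
theorem edges_indep {T : Finset (Finset (Fin N))}
    (hT : ∀ D ∈ T, ∀ x : Fin N, symmDiff D {x} ∉ T) : #(edges T Tᶜ) = N * #T := by
  have h1 : edges T Tᶜ = T ×ˢ (univ : Finset (Fin N)) := by
    ext q
    rw [mem_edges, mem_product, mem_compl]
    exact ⟨fun h => ⟨h.1, mem_univ _⟩, fun h => ⟨h.1, hT _ h.1 _⟩⟩
  rw [h1, card_product, card_univ, Fintype.card_fin, mul_comm]

theorem cs {e1 e2 p1 p2 a1 a2 y : ℕ} (h1 : e1 ^ 2 ≤ p1 * (a1 * y)) (h2 : e2 ^ 2 ≤ p2 * (a2 * y)) :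
    (e1 + e2) ^ 2 ≤ (p1 + p2) * ((a1 + a2) * y) := by
  have h3 : 2 * (e1 * e2) ≤ p1 * (a2 * y) + p2 * (a1 * y) := by
    by_contra hcon
    push Not at hcon
    have h4 : (p1 * (a2 * y) + p2 * (a1 * y)) ^ 2 < (2 * (e1 * e2)) ^ 2 :=
      Nat.pow_lt_pow_left hcon (by norm_num)
    have h5 : e1 ^ 2 * e2 ^ 2 ≤ (p1 * (a1 * y)) * (p2 * (a2 * y)) := Nat.mul_le_mul h1 h2
    have h6 : 4 * ((p1 * (a2 * y)) * (p2 * (a1 * y))) ≤ (p1 * (a2 * y) + p2 * (a1 * y)) ^ 2 := by
      zify
      nlinarith [sq_nonneg ((p1 : ℤ) * (a2 * y) - p2 * (a1 * y))]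
    have h7 : (2 * (e1 * e2)) ^ 2 = 4 * (e1 ^ 2 * e2 ^ 2) := by ring
    have h8 : (p1 * (a1 * y)) * (p2 * (a2 * y)) = (p1 * (a2 * y)) * (p2 * (a1 * y)) := by ring
    rw [h7] at h4
    rw [h8] at h5
    omega
  calc (e1 + e2) ^ 2 = e1 ^ 2 + e2 ^ 2 + 2 * (e1 * e2) := by ring
    _ ≤ p1 * (a1 * y) + p2 * (a2 * y) + (p1 * (a2 * y) + p2 * (a1 * y)) := by omega
    _ = (p1 + p2) * ((a1 + a2) * y) := by ring

theorem edges_left (X Y : Finset (Finset (Fin N))) (p : Finset (Fin N) → Prop) [DecidablePred p] :
    #(edges X Y) = #(edges (X.filter p) Y) + #(edges (X.filter fun D => ¬ p D) Y) := by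
  classical
  rw [← card_filter_add_card_filter_not (s := edges X Y) (fun q => p q.1)]
  congr 2
  · ext q
    simp only [mem_filter, mem_edges]
    tauto
  · ext q
    simp only [mem_filter, mem_edges]
    tauto

theorem edges_right (X Y : Finset (Finset (Fin N))) (p : Finset (Fin N) → Prop) [DecidablePred p] :
    #(edges X Y) = #(edges X (Y.filter p)) + #(edges X (Y.filter fun D => ¬ p D)) := by
  classical
  rw [← card_filter_add_card_filter_not (s := edges X Y) (fun q => p (symmDiff q.1 {q.2}))]
  congr 2
  · ext q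
    simp only [mem_filter, mem_edges]
    tauto
  · ext q
    simp only [mem_filter, mem_edges]
    tauto

end cube

end Pool.Agent.J6H88.PHJ
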